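import Pool.Agent.R944.Tysz.Exist

/-!
# The pseudoinverse solution of additive equation systems is bounded by `2^(n-1)`

Let `S` be a finite system of equations `x_i = 1` and `x_i + x_j = x_k` in `n` unknowns, consistent
or not, with matrix representation `A x = b` (one row for each equation). Then all coordinates of
`A† b` lie in `[-2^(n-1), 2^(n-1)]`, where `A†` is the Moore-Penrose pseudoinverse.

Proof. For `ε > 0` the solution of `(Aᵀ A + ε² 1) x = Aᵀ b` is, by Cramer's rule and the formula of
Cauchy and Binet, a convex combination of solutions of square subsystems of `A x = b`, `ε x = 0`,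
which are bounded by `2^(n-1)` because of the inequality `|det M| ≤ ∏ M_i` of C. R. Johnson and
M. Newman (`M_i` bounds the sum of the positive entries of row `i` and the sum of the absolute
values of its negative entries). For `ε → 0` it converges to `A† b`.

The definition `IsMoorePenrose A P` (in `Pool/Agent/R944/Tysz/Pinv.lean`) is the conjunction of the
four Penrose equations `A P A = A`, `P A P = P`, `(A P)ᵀ = A P`, `(P A)ᵀ = P A`, and
`IsMinNormLeastSquares A b x₀` says that `x₀` has minimal norm among the minimisers of `‖A x - b‖`.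
-/

set_option autoImplicit false

open Pool.Agent.R944.Tysz Matrix

namespace Pool.Agent.Results.MP_b60f31_al.PseudoinverseBound

/-- The equations of `W_n`: `Sum.inl i` is `x_i = 1`, and `Sum.inr (i, j, k)` with `i ≤ j` is
`x_i + x_j = x_k`. -/
abbrev Eqn (n : ℕ) : Type := Fin n ⊕ {t : Fin n × Fin n × Fin n // t.1 ≤ t.2.1}

/-- The row of an equation: `e_i`, or `e_i + e_j - e_k`. -/
def row {n : ℕ} : Eqn n → Fin n → ℝ
  | .inl i => Pi.single i 1
  | .inr t => Pi.single t.1.1 1 + Pi.single t.1.2.1 1 - Pi.single t.1.2.2 1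

/-- The right-hand side of an equation: `1`, or `0`. -/
def rhs {n : ℕ} : Eqn n → ℝ
  | .inl _ => 1
  | .inr _ => 0

/-- The matrix `A` of the system `S`. -/
def matA {n : ℕ} (S : Finset (Eqn n)) : Matrix S (Fin n) ℝ := Matrix.of fun e l => row e.1 l

/-- The right-hand side `b` of the system `S`. -/
def vecB {n : ℕ} (S : Finset (Eqn n)) : S → ℝ := fun e => rhs e.1

/-- **Q1, affirmative.** For every `n` and every system `S ⊆ W_n`, consistent or not, with matrix
representation `A x = b`: the pseudoinverse `A†` exists, every coordinate of `A† b` lies in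
`[-2^(n-1), 2^(n-1)]`, and so does every coordinate of the least-squares solution of minimal norm
(the same vector). -/
theorem result (n : ℕ) (S : Finset (Eqn n)) :
    (∃ P : Matrix (Fin n) S ℝ, IsMoorePenrose (matA S) P) ∧
    (∀ P : Matrix (Fin n) S ℝ, IsMoorePenrose (matA S) P →
      ∀ k, -(2 : ℝ) ^ (n - 1) ≤ (P *ᵥ vecB S) k ∧ (P *ᵥ vecB S) k ≤ 2 ^ (n - 1)) ∧
    (∀ x₀ : Fin n → ℝ, IsMinNormLeastSquares (matA S) (vecB S) x₀ →
      ∀ k, -(2 : ℝ) ^ (n - 1) ≤ x₀ k ∧ x₀ k ≤ 2 ^ (n - 1)) := by
  let a : S → Fin n → ℤ := fun e =>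
    match e.1 with
    | .inl i => rowU i
    | .inr t => rowA t.1.1 t.1.2.1 t.1.2.2
  let b : S → ℤ := fun e =>
    match e.1 with
    | .inl _ => 1
    | .inr _ => 0
  have ha : matA S = Matrix.of fun s j => ((a s j : ℤ) : ℝ) := by
    ext ⟨e, he⟩ j
    rcases e with i | t
    · simp [matA, row, a, rowU, Pi.single_apply]
    · simp [matA, row, a, rowA, Pi.single_apply]
  have hb : vecB S = fun s => ((b s : ℤ) : ℝ) := by
    funext ⟨e, he⟩
    rcases e with i | t
    · simp [vecB, rhs, b]
    · simp [vecB, rhs, b]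
  have hgood : ∀ s, Good (a s) (b s) := by
    rintro ⟨e, he⟩
    rcases e with i | t
    · exact good_rowU i
    · exact good_rowA _ _ _
  have main : ∀ x₀ : Fin n → ℝ, IsMinNormLeastSquares (matA S) (vecB S) x₀ →
      ∀ k, -(2 : ℝ) ^ (n - 1) ≤ x₀ k ∧ x₀ k ≤ 2 ^ (n - 1) := by
    intro x₀ h0 k
    rw [ha, hb] at h0
    exact abs_le.1 (pinv_main a b hgood x₀ h0 k)
  exact ⟨exists_moorePenrose _, fun P hP => main _ (moorePenrose_minNorm _ P hP _), main⟩

end Pool.Agent.Results.MP_b60f31_al.PseudoinverseBound
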